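import Pool.Agent.H38.CE.Even4

set_option autoImplicit false

/-!
# Circuit decompositions of complete binary matroids

`V r` is the space of vectors of length `r` over the field with two elements and `IsCircuit C` says
that `C` is a circuit.  Let `r ≥ 32`.  If `r + 1` divides `2 ^ r - 1` or `2 ^ (r - 2) - 1`, or if
`r` is odd and `r + 1` divides `2 ^ r - 2`, then the set of all nonzero vectors has a partition into
at most `⌈(2 ^ r - 1) / (r + 1)⌉` circuits.

By the little theorem of Fermat the three conditions hold for instance when `r + 1` is `p`, `3 p`,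
`2 p` with `p ≥ 17` prime.  In the last two cases `r + 1` does not divide `2 ^ r - 1`.
-/

namespace Pool.Agent.Results.MP_c35a4c_co.CompleteMatroids

open Finset Pool.Agent.H38.CD

theorem result (r : ℕ) (hr : 32 ≤ r)
    (hd : (r + 1) ∣ 2 ^ r - 1 ∨ (r + 1) ∣ 2 ^ (r - 2) - 1 ∨ (Odd r ∧ (r + 1) ∣ 2 ^ r - 2)) :
    ∃ P : Finpartition ((univ : Finset (V r)).erase 0), (∀ C ∈ P.parts, IsCircuit C) ∧
      (P.parts.card : ℤ) ≤ ⌈((2 : ℚ) ^ r - 1) / (r + 1)⌉ := by
  obtain ⟨P, hP, hc⟩ := Pool.Agent.H38.CE.complete3 r hr hd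
  refine ⟨P, hP, ?_⟩
  have hpos : (0 : ℚ) < (r : ℚ) + 1 := by positivity
  have h1 : (P.parts.card : ℤ) - 1 < ⌈((2 : ℚ) ^ r - 1) / (r + 1)⌉ := by
    rw [Int.lt_ceil, lt_div_iff₀ hpos]
    have h2 : P.parts.card * (r + 1) + 1 < 2 ^ r + (r + 1) := by
      have h3 : 0 < 2 ^ r := by positivity
      omega
    have h4 : ((P.parts.card * (r + 1) + 1 : ℕ) : ℚ) < ((2 ^ r + (r + 1) : ℕ) : ℚ) := by
      exact_mod_cast h2
    push_cast at h4 ⊢
    linarith
  omega

end Pool.Agent.Results.MP_c35a4c_co.CompleteMatroids
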