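import Pool.Agent.H38.CE.Exact3

set_option autoImplicit false

/-!
# The conjectured bound for circuit decompositions of Eulerian binary matroids

`V n` is the space of vectors of length `n` over the field with two elements, `IsCircuit C` says
that `C` is a circuit, `rk M` is the dimension of the span of `M`.  Every Eulerian `M` not
containing `0`, of rank `r ≥ 300000`, with `|M| ≤ 2 ^ r - 2 ^ (r - ⌊r / 2000⌋)` elements, has a
circuit decomposition with at most `⌈(2 ^ r - 1) / (r + 1)⌉` circuits.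
-/

namespace Pool.Agent.Results.MP_c35a4c_co.ExactBound

open Finset Pool.Agent.H38.CD

theorem result {n : ℕ} (M : Finset (V n)) (h0 : (0 : V n) ∉ M)
    (hE : ∃ Q : Finpartition M, ∀ C ∈ Q.parts, IsCircuit C) (hr : 300000 ≤ rk M)
    (hM : 2 ^ (rk M - rk M / 2000) + M.card ≤ 2 ^ rk M) :
    ∃ P : Finpartition M, (∀ C ∈ P.parts, IsCircuit C) ∧
      (P.parts.card : ℤ) ≤ ⌈((2 : ℚ) ^ rk M - 1) / (rk M + 1)⌉ := by
  obtain ⟨Q, hQ⟩ := hE
  obtain ⟨P, hP, hc⟩ := Pool.Agent.H38.CE.exact_rank M h0 (sum_zero_of_decomp Q hQ) hr hM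
  exact ⟨P, hP, Pool.Agent.H38.CE.ceil_form (by omega) hc⟩

end Pool.Agent.Results.MP_c35a4c_co.ExactBound
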