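import Pool.Agent.H38.CE.Gen3

set_option autoImplicit false

/-!
# Circuit decompositions of nearly complete binary matroids

`V r` is the space of vectors of length `r` over the field with two elements and `IsCircuit C` says
that `C` is a circuit.  Let `r ≥ 72`.  Every Eulerian set `M` of nonzero vectors of `V r` has a
partition into at most

`(2 ^ r - 1) / (r + 1) + 4 * 2 ^ ((4 * r + 6) / 5) + s`

circuits, where `s = 2 ^ r - 1 - |M|` is the number of nonzero vectors which are not in `M`, and
the exponent `(4 * r + 6) / 5` is rounded down.  In particular `s = 0` for the complete matroid, so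
the conjectured bound `(2 ^ r - 1) / (r + 1)` holds for it up to an error which is exponentially
smaller, for all ranks `r ≥ 72`.
-/

namespace Pool.Agent.Results.MP_c35a4c_co.NearComplete

open Finset Pool.Agent.H38.CD

theorem result (r : ℕ) (hr : 72 ≤ r) (M : Finset (V r)) (h0 : (0 : V r) ∉ M)
    (hE : ∃ Q : Finpartition M, ∀ C ∈ Q.parts, IsCircuit C) :
    ∃ P : Finpartition M, (∀ C ∈ P.parts, IsCircuit C) ∧ (P.parts.card : ℝ) ≤
      (2 ^ r - 1) / (r + 1) + 4 * 2 ^ ((4 * r + 6) / 5) + (2 ^ r - 1 - M.card) := by
  obtain ⟨Q, hQ⟩ := hE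
  exact Pool.Agent.H38.CE.near_complete hr M h0 (sum_zero_of_decomp Q hQ)

end Pool.Agent.Results.MP_c35a4c_co.NearComplete
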