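import Pool.Agent.H38.CD.Final

set_option autoImplicit false

/-!
# Circuit decompositions of Eulerian binary matroids

`V n` is the space of vectors of length `n` over the field with two elements, `IsCircuit C` says
that `C` is a circuit, `rk M` is the dimension of the span of `M`.  Every Eulerian `M` not
containing `0`, of rank `r ≥ 61`, has a circuit decomposition `P` with
`|P| * (r + 1) ≤ |M| + (24 / r) * 2 ^ r - 1`.

So the conjectured bound `(2 ^ r - 1) / (r + 1)` holds when `|M| ≤ (1 - 24 / r) * 2 ^ r`, and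
`(1 + 24 / r) * 2 ^ r / (r + 1)` circuits suffice for every `M`.
-/

namespace Pool.Agent.Results.MP_c35a4c_co.SharpUpToLowerOrder

open Finset Pool.Agent.H38.CD

theorem result {n : ℕ} (M : Finset (V n)) (h0 : (0 : V n) ∉ M)
    (hE : ∃ Q : Finpartition M, ∀ C ∈ Q.parts, IsCircuit C) (hr : 61 ≤ rk M) :
    ∃ P : Finpartition M, (∀ C ∈ P.parts, IsCircuit C) ∧
      (P.parts.card : ℝ) * (rk M + 1) ≤ M.card + 24 / rk M * 2 ^ rk M - 1 := by
  obtain ⟨Q, hQ⟩ := hE
  exact final_bound M h0 (sum_zero_of_decomp Q hQ) hr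

end Pool.Agent.Results.MP_c35a4c_co.SharpUpToLowerOrder
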